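import Pool.Agent.Helper32.CfMain

/-! Exterior determination for bounded measurable uniformly elliptic fractional conductivities. -/

namespace Pool.Agent.Results.MP_cfec03_an.ExteriorDetermination

open MeasureTheory Filter Topology Set Metric Pool.Agent.Helper32.Cf
open scoped ContDiff ENNReal

variable {n : ℕ} {s : ℝ}

lemma exists_phi (hn : 0 < n) (hs0 : 0 < s) (hs1 : s < 1) : ∃ φ : E n → ℝ, ContDiff ℝ ∞ φ ∧
    (∀ x, x ∉ closedBall (0 : E n) 1 → φ x = 0) ∧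
    0 < ∫ p : E n × E n, ker n s p * (D φ p) ^ 2 := by
  let b : ContDiffBump (0 : E n) := ⟨1 / 2, 1, by norm_num, by norm_num⟩
  have hb0 : ∀ x, x ∉ closedBall (0 : E n) 1 → b x = 0 := by
    intro x hx
    apply b.zero_of_le_dist
    rw [mem_closedBall, not_le] at hx
    exact hx.le
  have hT : IsTest (ball (0 : E n) 2) (b : E n → ℝ) := by
    refine ⟨b.contDiff, b.hasCompactSupport, ?_⟩
    rw [b.tsupport_eq]
    exact closedBall_subset_ball (by norm_num)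
  have hbd : BddInOneDirection (ball (0 : E n) 2) := by
    refine ⟨EuclideanSpace.single ⟨0, hn⟩ 1, by simp, -2, 2, fun x hx => ?_⟩
    have h1 := abs_real_inner_le_norm x (EuclideanSpace.single ⟨0, hn⟩ (1:ℝ))
    have h2 : ‖x‖ < 2 := by simpa using hx
    have h3 : ‖(EuclideanSpace.single ⟨0, hn⟩ (1:ℝ) : E n)‖ = 1 := by simp
    rw [h3, mul_one] at h1
    exact abs_lt.1 (lt_of_le_of_lt h1 h2)
  refine ⟨b, b.contDiff, hb0, ?_⟩
  have hH := test_memHs (s := s) hn hs0 hs1 hT.1 hT.2.1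
  have hDb : MemLp (D (b : E n → ℝ)) 2 (gag n s) := hH.2
  have h1 : ∫ p : E n × E n, ker n s p * (D (b : E n → ℝ) p) ^ 2 =
      (eLpNorm (D (b : E n → ℝ)) 2 (gag n s)).toReal ^ 2 := by
    rw [← sq_int hDb, integral_gag]
    refine integral_congr_ae (Eventually.of_forall fun p => ?_)
    simp only; ring
  rw [h1]
  have h2 : (eLpNorm (D (b : E n → ℝ)) 2 (gag n s)) ≠ 0 := by
    intro h0
    obtain ⟨C, hC, hP⟩ := poincare_test hs0 hbd
    have h3 := hP _ hT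
    rw [h0, mul_zero] at h3
    have h4 : eLpNorm (b : E n → ℝ) 2 volume = 0 := le_antisymm h3 zero_le
    rw [eLpNorm_eq_zero_iff b.continuous.aestronglyMeasurable (by norm_num)] at h4
    have h5 : (b : E n → ℝ) = 0 := (Continuous.ae_eq_iff_eq volume b.continuous continuous_const).1 h4
    have h6 : b 0 = 1 := b.one_of_mem_closedBall (by
      have : b.rIn = 1 / 2 := rfl
      simp [this])
    rw [h5] at h6
    simp at h6
  have h3 : 0 < (eLpNorm (D (b : E n → ℝ)) 2 (gag n s)).toReal := ENNReal.toReal_pos h2 hDb.2.ne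
  positivity

lemma good_common {c : ℝ} {g : E n → ℝ} {a₀ a₁ : ℝ} (G : Good c g a₀ a₁) (x₀ : E n) (y : E n) :
    |g y - g x₀| ≤ 2 * a₁ := by
  have h1 := G.lo y
  have h2 := G.hi y
  have h3 := G.lo x₀
  have h4 := G.hi x₀
  have h5 := G.a_pos
  rw [abs_le]; constructor <;> linarith

lemma good_locInt {c : ℝ} {g : E n → ℝ} {a₀ a₁ : ℝ} (G : Good c g a₀ a₁) :
    LocallyIntegrable g volume := by
  have h1 : LocallyIntegrable (fun _ : E n => a₁) volume := locallyIntegrable_const _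
  refine h1.mono G.meas.aestronglyMeasurable (Eventually.of_forall fun x => ?_)
  have h2 := G.lo x
  have h3 := G.hi x
  have h4 := G.a_pos
  rw [Real.norm_of_nonneg (by linarith), Real.norm_of_nonneg (by linarith)]
  exact h3

/-- the pointwise statement at a common Lebesgue point -/
lemma pointwise (hn : 0 < n) (hs0 : 0 < s) (hs1 : s < 1) {Ω : Set (E n)}
    (hΩ : BddInOneDirection Ω) {γ₁ γ₂ : E n → ℝ} (hγ₁ : UnifElliptic γ₁) (hγ₂ : UnifElliptic γ₂)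
    {W : Set (E n)} (hW : IsOpen W) (hWΩ : W ⊆ (closure Ω)ᶜ)
    (hDN : ∀ f, IsTest W f → ∀ g, IsTest W g → DN s γ₁ Ω f g = DN s γ₂ Ω f g)
    {g₁ g₂ : E n → ℝ} {a₀ a₁ b₀ b₁ : ℝ} (G₁ : Good (cst n s / 2) g₁ a₀ a₁)
    (G₂ : Good (cst n s / 2) g₂ b₀ b₁)
    (hg₁ : ∀ᵐ x ∂volume, g₁ x = Real.sqrt (γ₁ x)) (hg₂ : ∀ᵐ x ∂volume, g₂ x = Real.sqrt (γ₂ x))
    {x₀ : E n} (hx₀ : x₀ ∈ W)
    (hL₁ : Tendsto (fun t : ℝ => ⨍ y in closedBall x₀ t, ‖g₁ y - g₁ x₀‖) (𝓝[>] 0) (𝓝 0))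
    (hL₂ : Tendsto (fun t : ℝ => ⨍ y in closedBall x₀ t, ‖g₂ y - g₂ x₀‖) (𝓝[>] 0) (𝓝 0)) :
    g₁ x₀ = g₂ x₀ := by
  obtain ⟨ρ, hρ, hball⟩ := Metric.isOpen_iff.1 hW x₀ hx₀
  set r := ρ / 2 with hr
  have hr0 : 0 < r := by rw [hr]; positivity
  have h2r : ball x₀ (2 * r) ⊆ W := by rw [hr]; convert hball using 2; ring
  have hdisj : Disjoint Ω (ball x₀ (2 * r)) := by
    rw [Set.disjoint_left]
    intro y hy hy2
    exact hWΩ (h2r hy2) (subset_closure hy)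
  obtain ⟨φ, hφ, hφ0, hφI⟩ := exists_phi (n := n) hn hs0 hs1
  -- choice of the scales
  set h : E n → ℝ := fun y => ‖g₁ y - g₁ x₀‖ + ‖g₂ y - g₂ x₀‖ with hh
  have hm₁ := G₁.meas
  have hm₂ := G₂.meas
  have hhm : Measurable h := by rw [hh]; fun_prop
  have hi₁ : ∀ t : ℝ, IntegrableOn (fun y => ‖g₁ y - g₁ x₀‖) (closedBall x₀ t) volume := by
    intro t
    refine Integrable.mono' (g := fun _ => 2 * a₁) (integrableOn_const
      (measure_closedBall_lt_top.ne)) (by fun_prop : Measurable _).aestronglyMeasurable ?_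
    refine Eventually.of_forall fun y => ?_
    rw [norm_norm]; exact good_common G₁ x₀ y
  have hi₂ : ∀ t : ℝ, IntegrableOn (fun y => ‖g₂ y - g₂ x₀‖) (closedBall x₀ t) volume := by
    intro t
    refine Integrable.mono' (g := fun _ => 2 * b₁) (integrableOn_const
      (measure_closedBall_lt_top.ne)) (by fun_prop : Measurable _).aestronglyMeasurable ?_
    refine Eventually.of_forall fun y => ?_
    rw [norm_norm]; exact good_common G₂ x₀ y
  have hL : Tendsto (fun t : ℝ => ⨍ y in closedBall x₀ t, h y) (𝓝[>] 0) (𝓝 0) := by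
    have h1 := hL₁.add hL₂
    rw [add_zero] at h1
    refine h1.congr fun t => ?_
    rw [setAverage_eq, setAverage_eq, setAverage_eq, ← smul_add, ← integral_add (hi₁ t) (hi₂ t)]
  obtain ⟨t', ht'0, ht'lim, ht'ae⟩ := exists_scales hhm (fun x => by rw [hh]; positivity)
    (b := 2 * a₁ + 2 * b₁) (fun x => add_le_add (good_common G₁ x₀ x) (good_common G₂ x₀ x)) x₀ hL
  have hev : ∀ᶠ k in atTop, t' k ≤ r := by
    have := (tendsto_order.1 ht'lim).2 r hr0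
    exact this.mono fun k hk => hk.le
  obtain ⟨K, hK⟩ := eventually_atTop.1 hev
  set t : ℕ → ℝ := fun k => t' (k + K) with ht
  have ht0 : ∀ k, 0 < t k := fun k => ht'0 _
  have htr : ∀ k, t k ≤ r := fun k => hK _ (Nat.le_add_left _ _)
  have htl : Tendsto t atTop (𝓝 0) := (tendsto_add_atTop_iff_nat K).2 ht'lim
  have hae : ∀ᵐ x ∂(volume : Measure (E n)), Tendsto (fun k => h (x₀ + t k • x)) atTop (𝓝 0) := by
    filter_upwards [ht'ae] with x hx
    exact (tendsto_add_atTop_iff_nat (f := fun k => h (x₀ + t' k • x)) K).2 hx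
  have hlim₁ : ∀ᵐ x ∂(volume : Measure (E n)),
      Tendsto (fun k => g₁ (x₀ + t k • x)) atTop (𝓝 (g₁ x₀)) := by
    filter_upwards [hae] with x hx
    rw [tendsto_iff_norm_sub_tendsto_zero]
    exact squeeze_zero (fun _ => norm_nonneg _) (fun k => le_add_of_nonneg_right (norm_nonneg _)) hx
  have hlim₂ : ∀ᵐ x ∂(volume : Measure (E n)),
      Tendsto (fun k => g₂ (x₀ + t k • x)) atTop (𝓝 (g₂ x₀)) := by
    filter_upwards [hae] with x hx
    rw [tendsto_iff_norm_sub_tendsto_zero]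
    exact squeeze_zero (fun _ => norm_nonneg _) (fun k => le_add_of_nonneg_left (norm_nonneg _)) hx
  have k₁ := key_limit hn hs0 hs1 hΩ hγ₁ G₁ hg₁ x₀ r hr0 hdisj hφ hφ0 t ht0 htr htl hlim₁
  have k₂ := key_limit hn hs0 hs1 hΩ hγ₂ G₂ hg₂ x₀ r hr0 hdisj hφ hφ0 t ht0 htr htl hlim₂
  have heq : ∀ k, DN s γ₁ Ω (resc φ x₀ (t k)) (resc φ x₀ (t k)) =
      DN s γ₂ Ω (resc φ x₀ (t k)) (resc φ x₀ (t k)) := by
    intro k
    have hT : IsTest W (resc φ x₀ (t k)) := by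
      refine ⟨resc_contDiff hφ x₀ (t k), resc_hcs hφ0 x₀ (ht0 k), ?_⟩
      have h1 : tsupport (resc φ x₀ (t k)) ⊆ closedBall x₀ (t k) := by
        refine closure_minimal (fun x hx => ?_) isClosed_closedBall
        by_contra hne
        exact hx (resc_zero hφ0 x₀ (ht0 k) x hne)
      exact h1.trans ((closedBall_subset_ball (by have := htr k; linarith)).trans h2r)
    exact hDN _ hT _ hT
  simp only [heq] at k₁
  have h1 := tendsto_nhds_unique k₁ k₂
  have hc : 0 < cst n s / 2 := G₁.c_pos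
  have h2 : (g₁ x₀) ^ 2 = (g₂ x₀) ^ 2 := by
    have h3 : (cst n s / 2 * ∫ p : E n × E n, ker n s p * (D φ p) ^ 2) *
        ((g₁ x₀) ^ 2 - (g₂ x₀) ^ 2) = 0 := by linear_combination h1
    rcases mul_eq_zero.1 h3 with h | h
    · have := mul_pos hc hφI; linarith
    · linarith
  have h3 : 0 < g₁ x₀ := G₁.a_pos.trans_le (G₁.lo _)
  have h4 : 0 < g₂ x₀ := G₂.a_pos.trans_le (G₂.lo _)
  exact (pow_left_inj₀ h3.le h4.le two_ne_zero).1 h2

/-- Exterior determination for bounded measurable uniformly elliptic conductivities. -/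
theorem result {n : ℕ} {s : ℝ} (hs0 : 0 < s) (hs1 : s < 1) (hsn : s < (n : ℝ) / 2)
    {Ω : Set (E n)} (hΩo : IsOpen Ω) (hΩ : BddInOneDirection Ω) :
    (∀ γ : E n → ℝ, UnifElliptic γ → ∀ f : E n → ℝ, IsTest (closure Ω)ᶜ f →
      ∃ u, IsWeakSol s γ Ω f u ∧ ∀ u', IsWeakSol s γ Ω f u' → u' =ᵐ[volume] u) ∧
    ∀ γ₁ γ₂ : E n → ℝ, UnifElliptic γ₁ → UnifElliptic γ₂ →
      ∀ W : Set (E n), IsOpen W → W ⊆ (closure Ω)ᶜ →
        (∀ f, IsTest W f → ∀ g, IsTest W g → DN s γ₁ Ω f g = DN s γ₂ Ω f g) →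
        γ₁ =ᵐ[volume.restrict W] γ₂ := by
  have hn : 0 < n := by
    rcases Nat.eq_zero_or_pos n with h | h
    · subst h; simp at hsn; linarith
    · exact h
  refine ⟨fun γ hγ f hf => wellposed hn hs0 hs1 hΩ hγ hf, ?_⟩
  intro γ₁ γ₂ hγ₁ hγ₂ W hW hWΩ hDN
  obtain ⟨g₁, a₀, a₁, G₁, hg₁⟩ := exists_good hs0 hs1 hγ₁
  obtain ⟨g₂, b₀, b₁, G₂, hg₂⟩ := exists_good hs0 hs1 hγ₂
  have hLeb : ∀ {g : E n → ℝ}, LocallyIntegrable g volume → ∀ᵐ x₀ ∂(volume : Measure (E n)),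
      Tendsto (fun t : ℝ => ⨍ y in closedBall x₀ t, ‖g y - g x₀‖) (𝓝[>] 0) (𝓝 0) := by
    intro g hg
    filter_upwards [IsUnifLocDoublingMeasure.ae_tendsto_average_norm_sub volume hg 1] with x hx
    refine hx (fun _ => x) (fun t => t) tendsto_id ?_
    filter_upwards [self_mem_nhdsWithin] with t ht
    rw [one_mul]
    exact mem_closedBall_self (le_of_lt ht)
  obtain ⟨c₀, _, hc₀, hb₁⟩ := hγ₁.2
  obtain ⟨c₀', _, hc₀', hb₂⟩ := hγ₂.2
  rw [Filter.EventuallyEq, ae_restrict_iff' hW.measurableSet]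
  filter_upwards [hLeb (good_locInt G₁), hLeb (good_locInt G₂), hg₁, hg₂, hb₁, hb₂]
    with x h1 h2 h3 h4 h5 h6 hx
  have h7 := pointwise hn hs0 hs1 hΩ hγ₁ hγ₂ hW hWΩ hDN G₁ G₂ hg₁ hg₂ hx h1 h2
  rw [h3, h4] at h7
  have h8 : 0 ≤ γ₁ x := by linarith [h5.1]
  have h9 : 0 ≤ γ₂ x := by linarith [h6.1]
  exact (Real.sqrt_inj h8 h9).1 h7

end Pool.Agent.Results.MP_cfec03_an.ExteriorDetermination
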